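import Mathlib
import Pool.Agent.W789.TH.Defs
import Pool.Agent.W789.TH.All
import Pool.Agent.W789.TH.C03
import Pool.Agent.W789.TH.C04
import Pool.Agent.W789.TH.C05
import Pool.Agent.W789.TH.C06

/-!
# The optimal exponent for approximation from the domains `Φ(ρ, 0)`

For every `1 < ρ ≤ 7 / 4` the supremum `s*(ρ)` of the exponents admitted by `(ρ, 0)` is the unique
real `s > 1` with
`ρ (s³ - 2 s - 1) - (ρ - 1) s² = (s - 1) √((ρ - 1) ((2 ρ - 1) s + ρ))`.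
It is larger than Thurnheer's exponent `s(ρ)` (the largest root of
`ρ x³ - 2 (ρ - 1) x² - 2 ρ x - 1`) for `1 < ρ < 7 / 4`, and equal to `2` for `ρ = 7 / 4`.
-/

namespace Pool.Agent.Results.MP_594f4b_nt.ExactExponent

open Pool.Agent.W789.TH

/-- `s*(ρ)`: the supremum of the exponents admitted by the pair `(ρ, 0)`. -/
noncomputable def sStar (ρ : ℝ) : ℝ := sSup {t : ℝ | 0 < t ∧ Admits ρ 0 t}

theorem phi_gt : (3 : ℝ) / 2 < (1 + √5) / 2 := by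
  have : (2 : ℝ) < √5 := by
    rw [Real.lt_sqrt (by norm_num)]; norm_num
  linarith

theorem sStar_eq (ρ s β : ℝ) (hρ1 : 1 < ρ) (hρ2 : ρ ≤ 7 / 4) (hV : Val ρ s β) : sStar ρ = s := by
  obtain ⟨m1, m2⟩ := All.main ρ s β hρ1 hρ2 hV
  have hs : 1 < s := by
    have := hV.1
    have := phi_gt
    linarith
  unfold sStar
  apply IsLUB.csSup_eq
  · constructor
    · rintro t ⟨ht, hadm⟩
      by_contra hcon
      push Not at hcon
      exact m2 t hcon hadm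
    · intro b hb
      by_contra hcon
      push Not at hcon
      obtain ⟨t, ht1, ht2⟩ := exists_between (max_lt hcon hs)
      have h1 : b < t := (le_max_left _ _).trans_lt ht1
      have h2 : 1 < t := (le_max_right _ _).trans_lt ht1
      have h3 := hb ⟨by linarith, m1 t (by linarith) ht2⟩
      linarith
  · exact ⟨1, one_pos, m1 1 one_pos hs⟩

/-- **Main theorem.** The value of `s*(ρ)` for `1 < ρ ≤ 7 / 4`. -/
theorem result (ρ : ℝ) (hρ1 : 1 < ρ) (hρ2 : ρ ≤ 7 / 4) :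
    1 < sStar ρ ∧
    ρ * (sStar ρ ^ 3 - 2 * sStar ρ - 1) - (ρ - 1) * sStar ρ ^ 2 =
      (sStar ρ - 1) * √((ρ - 1) * ((2 * ρ - 1) * sStar ρ + ρ)) ∧
    (∀ s : ℝ, 1 < s → ρ * (s ^ 3 - 2 * s - 1) - (ρ - 1) * s ^ 2 =
      (s - 1) * √((ρ - 1) * ((2 * ρ - 1) * s + ρ)) → s = sStar ρ) ∧
    (∀ t : ℝ, 0 < t → t < sStar ρ → Admits ρ 0 t) ∧
    (∀ t : ℝ, sStar ρ < t → ¬ Admits ρ 0 t) ∧
    (ρ < 7 / 4 → ∃ r : ℝ, IsGreatest
      {x : ℝ | ρ * x ^ 3 - 2 * (ρ - 1) * x ^ 2 - 2 * ρ * x - 1 = 0} r ∧ r < sStar ρ) ∧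
    (ρ = 7 / 4 → sStar ρ = 2) := by
  obtain ⟨s, β, hV⟩ := C03.pf ρ hρ1 hρ2
  obtain ⟨m1, m2⟩ := All.main ρ s β hρ1 hρ2 hV
  have hs : 1 < s := by
    have := hV.1
    have := phi_gt
    linarith
  have e := sStar_eq ρ s β hρ1 hρ2 hV
  rw [e]
  have huniq : ∀ s' : ℝ, 1 < s' → ρ * (s' ^ 3 - 2 * s' - 1) - (ρ - 1) * s' ^ 2 =
      (s' - 1) * √((ρ - 1) * ((2 * ρ - 1) * s' + ρ)) → s' = s := by
    intro s' hs' heq
    obtain ⟨β', hV'⟩ := (C05.pf ρ s' hρ1 hρ2 hs').1 heq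
    rw [← sStar_eq ρ s' β' hρ1 hρ2 hV', e]
  refine ⟨hs, (C05.pf ρ s hρ1 hρ2 hs).2 ⟨β, hV⟩, huniq, m1, m2, ?_, ?_⟩
  · intro h
    exact C06.pf C04.pf ρ s β hρ1 h hV
  · intro h
    symm
    apply huniq 2 (by norm_num)
    rw [h]
    have h1 : (7 / 4 - 1 : ℝ) * ((2 * (7 / 4) - 1) * 2 + 7 / 4) = (9 / 4) ^ 2 := by norm_num
    rw [h1, Real.sqrt_sq (by norm_num)]
    norm_num

end Pool.Agent.Results.MP_594f4b_nt.ExactExponent
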